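import Pool.Agent.Helper18_TNF.Stmts
import Pool.Agent.Helper41_TOR.Nf

/-! Module PRM of table tnf: the primes lemma. -/

set_option autoImplicit false

namespace Pool.Agent.TNF.H41

open Pool.Agent.TOR Pool.Agent.TNF

/-- the choice of feet, indexed by `Fin r` with distinguished foot `l` -/
theorem feet_fin {Λ : Type*} [AddCommGroup Λ] (K : AddSubgroup Λ) (r : ℕ) (c : Fin r → Λ)
    (l : Fin r) (hK : (2 ^ r).factorial • c l ∉ K) :
    ∃ m : Fin r → ℕ, m l = 0 ∧ ∀ S : Finset (Fin r), S.Nonempty →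
      ∑ i ∈ S, (c i + m i • c l) ∉ K := by
  classical
  have hr : 0 < r := by have := l.2; omega
  let z : Fin r := ⟨0, hr⟩
  let σ : Equiv.Perm (Fin r) := Equiv.swap z l
  let c' : ℕ → Λ := fun n => if h : n < r then c (σ ⟨n, h⟩) else 0
  have hc' : ∀ j : Fin r, c' (σ.symm j : Fin r) = c j := by
    intro j
    change (if h : ((σ.symm j : Fin r) : ℕ) < r then c (σ ⟨(σ.symm j : Fin r), h⟩) else 0) = c j
    rw [dif_pos (σ.symm j).2]
    congr 1
    exact σ.apply_symm_apply j
  have hz : σ.symm l = z := by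
    change (Equiv.swap z l).symm l = z
    rw [Equiv.symm_swap, Equiv.swap_apply_right]
  have hc0 : c' 0 = c l := by
    have h := hc' l
    rw [hz] at h
    exact h
  have hK' : (2 ^ (r - 1)).factorial • c' 0 ∉ K := by
    rw [hc0]
    intro h
    apply hK
    have h1 : (2 ^ (r - 1)).factorial ∣ (2 ^ r).factorial :=
      Nat.factorial_dvd_factorial (Nat.pow_le_pow_right (by norm_num) (by omega))
    obtain ⟨d, hd⟩ := h1
    rw [hd, mul_comm, mul_smul]
    exact K.nsmul_mem h d
  obtain ⟨m, hm0, hm⟩ := feet_exist K r c' hK'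
  refine ⟨fun j => m (σ.symm j : Fin r), ?_, fun S hS => ?_⟩
  · change m (σ.symm l : Fin r) = 0
    rw [hz]; exact hm0
  · have h := hm (S.map (σ.symm.toEmbedding.trans Fin.valEmbedding)) (by
      obtain ⟨j, hj⟩ := hS
      exact ⟨_, Finset.mem_map_of_mem _ hj⟩) (by
      intro i hi
      rw [Finset.mem_map] at hi
      obtain ⟨j, _, rfl⟩ := hi
      exact (σ.symm j).2)
    rw [Finset.sum_map] at h
    have h2 : ∑ j ∈ S, (c' ((σ.symm.toEmbedding.trans Fin.valEmbedding) j) +
        m ((σ.symm.toEmbedding.trans Fin.valEmbedding) j) • c' 0) =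
        ∑ j ∈ S, (c j + m (σ.symm j : Fin r) • c l) := by
      refine Finset.sum_congr rfl fun j _ => ?_
      rw [hc0]
      congr 1
      exact hc' j
    rw [h2] at h
    exact h

theorem prm : PRM := by
  classical
  intro U _ r U0 e l I h1 h2 h3
  let g : U → MonoidAlgebra ℚ U := fun u => MonoidAlgebra.single u 1
  have hg : ∀ a b, g (a * b) = g a * g b := by
    intro a b
    change MonoidAlgebra.single (a * b) (1 : ℚ) = _
    rw [MonoidAlgebra.single_mul_single, one_mul]
  have hg1 : g 1 = 1 := rfl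
  let N := (2 ^ r).factorial
  let τ : MonoidAlgebra ℚ U := g (e l ^ N) - 1
  by_contra hcon
  push Not at hcon
  obtain ⟨P, hP, hIP, hPd⟩ := Ideal.exists_le_prime_disjoint I (Submonoid.powers τ) (by
    rw [Set.disjoint_left]
    rintro a ha ⟨m, rfl⟩
    exact hcon m ha)
  have hτ : τ ∉ P := fun h => Set.disjoint_left.1 hPd h ⟨1, pow_one τ⟩
  have hmul : ∀ a b : U, g a - 1 ∈ P → g b - 1 ∈ P → g (a * b) - 1 ∈ P := by
    intro a b ha hb
    have : g (a * b) - 1 = g a * (g b - 1) + (g a - 1) := by rw [hg]; ring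
    rw [this]
    exact P.add_mem (P.mul_mem_left _ hb) ha
  have hinv : ∀ a : U, g a - 1 ∈ P → g a⁻¹ - 1 ∈ P := by
    intro a ha
    have h1 : g a⁻¹ * g a = 1 := by rw [← hg, inv_mul_cancel, hg1]
    have : g a⁻¹ - 1 = -(g a⁻¹ * (g a - 1)) := by rw [mul_sub, h1]; ring
    rw [this]
    exact P.neg_mem (P.mul_mem_left _ ha)
  let K : Subgroup U :=
    { carrier := {u | g u - 1 ∈ P}
      mul_mem' := fun {a b} ha hb => hmul a b ha hb
      one_mem' := by
        change g 1 - 1 ∈ P
        rw [hg1, sub_self]; exact P.zero_mem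
      inv_mem' := fun {a} ha => hinv a ha }
  have hKU : U0 ≤ K := fun s hs => hIP (h1 s hs)
  have hNK : (2 ^ r).factorial • Additive.ofMul (e l) ∉ Subgroup.toAddSubgroup K := by
    intro h
    exact hτ h
  obtain ⟨m, hm0, hm⟩ := feet_fin (Subgroup.toAddSubgroup K) r
    (fun j => Additive.ofMul (e j)) l hNK
  -- the symmetry
  have key : ∀ J : Finset (Fin r), l ∉ J → ∃ σ : U →* U,
      (∀ j ∈ J, (e j * e l ^ m j)⁻¹ * σ (e j) ∈ U0) ∧ (∀ i, i ∉ J → (e i)⁻¹ * σ (e i) ∈ U0) ∧
      (∀ s ∈ U0, σ s ∈ U0) ∧ ∀ p ∈ I, MonoidAlgebra.mapDomainRingHom ℚ σ p ∈ I := by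
    intro J
    induction J using Finset.induction_on with
    | empty =>
      intro _
      refine ⟨MonoidHom.id U, by simp, fun i _ => ?_, fun s hs => hs, fun p hp => ?_⟩
      · rw [MonoidHom.id_apply, inv_mul_cancel]; exact one_mem _
      · have : MonoidAlgebra.mapDomainRingHom ℚ (MonoidHom.id U) = RingHom.id _ := by
          ext <;> simp
        rw [this]; exact hp
    | insert j J hj ih =>
      intro hl
      rw [Finset.mem_insert, not_or] at hl
      obtain ⟨σ, a1, a2, a3, a4⟩ := ih hl.2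
      obtain ⟨τ, b1, b2, b3, b4⟩ := h2 j (Ne.symm hl.1) (m j)
      refine ⟨σ.comp (τ : U →* U), ?_, ?_, fun s hs => a3 _ (b3 s hs), fun p hp => ?_⟩
      · intro i hi
        rw [Finset.mem_insert] at hi
        have key2 : ∀ (x y z : U), x⁻¹ * τ y ∈ U0 → z⁻¹ * σ x ∈ U0 → z⁻¹ * σ (τ y) ∈ U0 := by
          intro x y z hx hz
          have h := a3 _ hx
          rw [map_mul, map_inv] at h
          have h5 := mul_mem hz h
          rwa [mul_assoc, mul_inv_cancel_left] at h5
        rcases hi with rfl | hi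
        · refine key2 (e i * e l ^ (m i : ℤ)) _ _ b1 ?_
          have h5 := a2 i hj
          have h6 := a2 l hl.2
          rw [map_mul, map_zpow]
          have h7 : (e i * e l ^ m i)⁻¹ * (σ (e i) * σ (e l) ^ (m i : ℤ)) =
              ((e i)⁻¹ * σ (e i)) * ((e l)⁻¹ * σ (e l)) ^ (m i : ℤ) := by
            rw [mul_zpow, inv_zpow, zpow_natCast, zpow_natCast, mul_inv]
            exact mul_mul_mul_comm _ _ _ _
          rw [h7]
          exact mul_mem h5 (U0.zpow_mem h6 _)
        · have hij : i ≠ j := by rintro rfl; exact hj hi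
          exact key2 (e i) _ _ (b2 i hij) (a1 i hi)
      · intro i hi
        rw [Finset.mem_insert, not_or] at hi
        have h := a3 _ (b2 i hi.1)
        rw [map_mul, map_inv] at h
        have h5 := mul_mem (a2 i hi.2) h
        rwa [mul_assoc, mul_inv_cancel_left] at h5
      · have h5 := a4 _ (b4 p hp)
        have h6 : MonoidAlgebra.mapDomainRingHom ℚ (σ.comp (τ : U →* U)) p =
            MonoidAlgebra.mapDomainRingHom ℚ σ
              (MonoidAlgebra.mapDomainRingHom ℚ (τ : U →* U) p) := by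
          have : MonoidAlgebra.mapDomainRingHom ℚ (σ.comp (τ : U →* U)) =
              (MonoidAlgebra.mapDomainRingHom ℚ σ).comp
                (MonoidAlgebra.mapDomainRingHom ℚ (τ : U →* U)) := by
            ext <;> simp
          rw [this]; rfl
        rw [h6]; exact h5
  obtain ⟨σ, a1, a2, a3, a4⟩ := key (Finset.univ.erase l) (Finset.notMem_erase _ _)
  have hσ : ∀ j, (e j * e l ^ m j)⁻¹ * σ (e j) ∈ U0 := by
    intro j
    by_cases hj : j = l
    · subst hj
      rw [hm0, pow_zero, mul_one]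
      exact a2 j (Finset.notMem_erase _ _)
    · exact a1 j (Finset.mem_erase.2 ⟨hj, Finset.mem_univ _⟩)
  let f := MonoidAlgebra.mapDomainRingHom ℚ σ
  have hf : ∀ u, f (g u) = g (σ u) := by
    intro u
    simp [f, g]
  refine h3 (P.comap f) (Ideal.comap_isPrime f P) (fun p hp => hIP (a4 p hp)) ?_
  intro S hS s hs hmem
  apply hm S hS
  have h5 : f (g ((∏ j ∈ S, e j) * s) - 1) ∈ P := hmem
  rw [map_sub, map_one, hf] at h5
  have h6 : σ ((∏ j ∈ S, e j) * s) ∈ K := h5
  rw [map_mul, map_prod] at h6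
  have h7 : ∏ j ∈ S, σ (e j) ∈ K := by
    have := mul_mem h6 (inv_mem (hKU (a3 s hs)))
    rwa [mul_inv_cancel_right] at this
  have h8 : ∏ j ∈ S, ((e j * e l ^ m j)⁻¹ * σ (e j)) ∈ K :=
    K.prod_mem fun j _ => hKU (hσ j)
  have h9 : ∏ j ∈ S, (e j * e l ^ m j) ∈ K := by
    have h10 := mul_mem h7 (inv_mem h8)
    rw [← Finset.prod_inv_distrib, ← Finset.prod_mul_distrib] at h10
    have h11 : ∏ j ∈ S, (e j * e l ^ m j) =
        ∏ j ∈ S, (σ (e j) * ((e j * e l ^ m j)⁻¹ * σ (e j))⁻¹) := by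
      refine Finset.prod_congr rfl fun j _ => ?_
      rw [mul_inv, inv_inv, mul_comm (e j * e l ^ m j), mul_inv_cancel_left]
    rw [h11]
    exact h10
  have h10 : ∑ j ∈ S, (Additive.ofMul (e j) + m j • Additive.ofMul (e l)) =
      Additive.ofMul (∏ j ∈ S, (e j * e l ^ m j)) := by
    rw [ofMul_prod]
    rfl
  rw [h10]
  exact h9

end Pool.Agent.TNF.H41
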